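import Mathlib

set_option autoImplicit false
set_option linter.unusedSectionVars false

namespace Pool.Agent.H.MP_fc4263_co

open Finset

structure St where
  j : ℕ
  k : ℕ
  w : ℕ
  q : ℕ
  e : ℕ

def τ (q : ℕ) : ℕ → ℕ
  | 0 => q
  | k + 1 => 1 + 4 * τ q k

def nch : St → ℕ
  | ⟨_, _, _ + 1, _, _⟩ => 2
  | ⟨_, _ + 1, 0, _, _⟩ => 4
  | ⟨_, 0, 0, _ + 1, _⟩ => 1
  | ⟨_, 0, 0, 0, _ + 1⟩ => 2
  | ⟨_, 0, 0, 0, 0⟩ => 4

def nx : St → ℕ → St
  | ⟨j, k, w + 1, q, e⟩, _ => ⟨j, k, w, q, e⟩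
  | ⟨j, k + 1, 0, q, e⟩, s => ⟨j, k, s * τ q k, q, e + (3 - s) * τ q k⟩
  | ⟨j, 0, 0, q + 1, e⟩, _ => ⟨j, 0, 0, q, e⟩
  | ⟨j, 0, 0, 0, e + 1⟩, _ => ⟨j, 0, 0, 0, e⟩
  | ⟨j, 0, 0, 0, 0⟩, s => ⟨j + 1, j, s * τ (j + 1) j, j + 1, 0 + (3 - s) * τ (j + 1) j⟩

def N : ℕ → St → ℕ
  | 0, _ => 1
  | r + 1, s => ∑ c ∈ range (nch s), N r (nx s c)

lemma nch_le (s : St) : nch s ≤ 4 := by
  rcases s with ⟨j, _ | k, _ | w, _ | q, _ | e⟩ <;> simp [nch]

lemma p1 (r k : ℕ) : 2 ^ (r + 1 + (k + 1)) = 4 * 2 ^ (r + k) := by ring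
lemma p2 (r k : ℕ) : 2 ^ (r + 1 + k) = 2 * 2 ^ (r + k) := by ring

lemma N_low : ∀ r (s : St), s.k ≤ s.q → 2 ^ (r + s.k) ≤ N r s * 2 ^ s.q := by
  intro r
  induction r with
  | zero => intro s h; simpa [N] using Nat.pow_le_pow_right two_pos h
  | succ r ih =>
    have A : ∀ j k q e, k ≤ q →
        2 ^ (r + 1 + (k + 1)) ≤ N (r + 1) ⟨j, k + 1, 0, q, e⟩ * 2 ^ q := by
      intro j k q e h
      have a := fun c => ih (nx ⟨j, k + 1, 0, q, e⟩ c) h
      have := a 0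
      have := a 1
      have := a 2
      have := a 3
      simp only [N, nch, nx, sum_range_succ, sum_range_zero, p1, add_mul] at *
      omega
    rintro ⟨j, k, _ | w, q, e⟩ h
    · rcases k with _ | k
      · rcases q with _ | q
        · rcases e with _ | e
          · have := A (j + 1) j (j + 1) 0 (by omega)
            rw [pow_add] at this
            simpa [N, nch, nx] using Nat.le_of_mul_le_mul_right this (by positivity)
          · have := ih ⟨j, 0, 0, 0, e⟩ le_rfl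
            simp [N, nch, nx, pow_succ] at *
            omega
        · have := ih ⟨j, 0, 0, q, e⟩ (by simp)
          simp [N, nch, nx, pow_succ, ← mul_assoc] at *
          omega
      · exact A j k q e (by simp at h; omega)
    · have := ih ⟨j, k, w, q, e⟩ h
      simp only [N, nch, nx, p2, mul_assoc, sum_const, card_range, smul_eq_mul] at *
      omega

lemma N_up : ∀ r (s : St), (r ≤ s.w → N r s ≤ 2 ^ r) ∧
    (s.w + τ s.q s.k ≤ r → r ≤ s.w + τ s.q s.k + s.e → N r s * 2 ^ s.q ≤ 2 ^ (r + s.k)) ∧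
    (s.w + τ s.q s.k ≤ r → N r s * 2 ^ s.q ≤ 3 * 2 ^ (r + s.k)) ∧
    (s.k ≤ s.q → N r s ≤ 3 * 2 ^ r) := by
  intro r
  induction r with
  | zero =>
    rintro ⟨j, _ | k, w, q, e⟩
    · simp +contextual [N, τ]
    · simp [N, τ]
  | succ r ih =>
    have C : ∀ a q k : ℕ, k ≤ q → ∀ c, a * 2 ^ q ≤ c * 2 ^ k → a ≤ c := fun a q k h c h' =>
      Nat.le_of_mul_le_mul_right (h'.trans (Nat.mul_le_mul_left _
        (Nat.pow_le_pow_right two_pos h))) (by positivity)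
    have A : ∀ j k q e,
        (0 + τ q (k + 1) ≤ r + 1 → r + 1 ≤ 0 + τ q (k + 1) + e →
          N (r + 1) ⟨j, k + 1, 0, q, e⟩ * 2 ^ q ≤ 2 ^ (r + 1 + (k + 1))) ∧
        (0 + τ q (k + 1) ≤ r + 1 →
          N (r + 1) ⟨j, k + 1, 0, q, e⟩ * 2 ^ q ≤ 3 * 2 ^ (r + 1 + (k + 1))) ∧
        (k + 1 ≤ q → N (r + 1) ⟨j, k + 1, 0, q, e⟩ ≤ 3 * 2 ^ (r + 1)) := by
      intro j k q e
      have a := fun c => ih (nx ⟨j, k + 1, 0, q, e⟩ c)
      have a0 := a 0
      have a1 := a 1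
      have a2 := a 2
      have a3 := a 3
      have b : 0 + τ q (k + 1) ≤ r + 1 →
          N (r + 1) ⟨j, k + 1, 0, q, e⟩ * 2 ^ q ≤ 3 * 2 ^ (r + 1 + (k + 1)) := by
        simp only [N, nch, nx, sum_range_succ, sum_range_zero, p1, add_mul, τ] at *
        omega
      refine ⟨?_, b, fun h => ?_⟩
      · simp only [N, nch, nx, sum_range_succ, sum_range_zero, p1, add_mul, τ] at *
        omega
      by_cases h1 : 0 + τ q (k + 1) ≤ r + 1
      · exact C _ _ _ h _ (by rw [mul_assoc, ← pow_add]; exact b h1)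
      have c := fun c => C (N r (nx ⟨j, k + 1, 0, q, e⟩ c)) q k (by omega) (2 ^ r)
      have c0 := c 0
      have c1 := c 1
      have c2 := c 2
      have c3 := c 3
      simp only [N, nch, nx, sum_range_succ, sum_range_zero, pow_add, add_mul, τ] at *
      omega
    rintro ⟨j, k, _ | w, q, e⟩
    · rcases k with _ | k
      · rcases q with _ | q
        · rcases e with _ | e
          · have := (A (j + 1) j (j + 1) 0).2.2 le_rfl
            simpa [N, nch, nx, τ] using this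
          · have := ih ⟨j, 0, 0, 0, e⟩
            simp [N, nch, nx, pow_succ, τ] at *
            omega
        · have := ih ⟨j, 0, 0, q, e⟩
          simp [N, nch, nx, pow_succ, ← mul_assoc, τ] at *
          omega
      · exact ⟨by simp, A j k q e⟩
    · have := ih ⟨j, k, w, q, e⟩
      rw [pow_succ]
      simp only [N, nch, nx, p2, mul_assoc, sum_const, card_range, smul_eq_mul] at *
      omega

def tt : ℕ → ℕ
  | 0 => 0
  | j + 1 => tt j + τ (j + 1) (j + 1)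

def Inv (s : St) (l : ℤ) : Prop := s.k ≤ s.q ∧ s.q ≤ s.j ∧ (0 < s.k ∨ 0 < s.w → s.q = s.j) ∧
  ((s.w + τ s.q s.k + s.e : ℕ) : ℤ) = tt s.j + l

lemma Inv.step {s : St} {l : ℤ} (h : Inv s (l + 1)) {c : ℕ} (hc : c < nch s) : Inv (nx s c) l := by
  have := nch_le s
  have h3 : ∀ t, c * t + t + (3 - c) * t = 4 * t := fun t => by
    obtain ⟨d, hd⟩ : ∃ d, 3 = c + d := ⟨3 - c, by omega⟩
    rw [show 3 - c = d by omega, show 4 = c + d + 1 by omega]; ring
  obtain ⟨j, k, w, q, e⟩ := s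
  have a := h3 (τ (j + 1) j)
  have b := h3 (τ q (k - 1))
  clear h3 hc this
  rcases k with _ | k <;> rcases w with _ | w <;> rcases q with _ | q <;> rcases e with _ | e <;>
    simp only [Inv, nx, τ, tt, Nat.add_sub_cancel] at * <;> grind

def dd (J : ℕ) (s : St) : ℕ :=
  if s.j < J then 0 else if J < s.j then J + 1 else if 0 < s.k ∨ 0 < s.w then 0 else J + 1 - s.q

lemma dd_step {J : ℕ} {s : St} {l : ℤ} (h : Inv s l) (c : ℕ) :
    (dd J s = 0 → dd J (nx s c) ≤ 1) ∧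
    (1 ≤ dd J s → dd J s ≤ J → dd J (nx s c) = dd J s + 1 ∧ nch s = 1) ∧
    (J < dd J s → dd J (nx s c) = dd J s) := by
  obtain ⟨h1, h2, h3, -⟩ := h
  rcases s with ⟨j, _ | k, _ | w, _ | q, _ | e⟩ <;> simp only [nx, nch, dd] at * <;> grind

lemma tt_mono : Monotone tt := monotone_nat_of_le_succ fun j => by simp [tt]

lemma dd_lev {J : ℕ} {s : St} {l : ℤ} (h : Inv s l) (hd : dd J s ≤ J) : -(tt J : ℤ) ≤ l := by
  have : s.j ≤ J := by unfold dd at hd; split_ifs at hd <;> omega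
  have := tt_mono this
  have := h.2.2.2
  omega

def rp (x : ℤ × (ℕ → ℕ)) : ℤ × (ℕ → ℕ) := (x.1 + 1, fun i => x.2 (i + 1))

def stN : ℕ → (ℕ → ℕ) → St
  | 0, _ => ⟨0, 0, 0, 0, 0⟩
  | m + 1, a => nx (stN m fun i => a (i + 1)) (a 0)

def rs (x : ℤ × (ℕ → ℕ)) : St :=
  if 0 ≤ x.1 then ⟨0, 0, 0, 0, x.1.toNat⟩ else stN (-x.1).toNat x.2

lemma rs_rp (x : ℤ × (ℕ → ℕ)) : rs x = nx (rs (rp x)) (x.2 0) := by
  obtain ⟨h, a⟩ := x
  simp only [rs, rp]
  split_ifs with h1 h2 h2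
  · rw [show (h + 1).toNat = h.toNat + 1 by omega]; rfl
  · omega
  · obtain rfl : h = -1 := by omega
    rfl
  · rw [show (-h).toNat = (-(h + 1)).toNat + 1 by omega]; rfl

lemma rp_it (n : ℕ) (x : ℤ × (ℕ → ℕ)) : rp^[n] x = (x.1 + n, fun i => x.2 (i + n)) := by
  induction n with
  | zero => simp
  | succ n ih =>
    rw [Function.iterate_succ_apply', ih]
    simp [rp, add_assoc, add_comm 1 n]

theorem tree : ∃ (T : Type) (p : T → T) (l : T → ℤ) (st : T → St) (lab : T → ℕ),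
    (∃ x, l x = 0) ∧ (∀ x, l (p x) = l x + 1) ∧ (∀ x y, ∃ a b, p^[a] x = p^[b] y) ∧
    (∀ z, lab z < nch (st (p z)) ∧ st z = nx (st (p z)) (lab z)) ∧
    (∀ z z', p z = p z' → lab z = lab z' → z = z') ∧
    (∀ x, ∀ c < nch (st x), ∃ z, p z = x ∧ lab z = c) ∧
    ∀ x, 0 ≤ l x → st x = ⟨0, 0, 0, 0, (l x).toNat⟩ := by
  let T := {x : ℤ × (ℕ → ℕ) // (∀ i, x.2 i < nch (rs (rp^[i + 1] x))) ∧ ∃ n, ∀ i ≥ n, x.2 i = 0}
  let p : T → T := fun x => ⟨rp x.1, fun i => x.2.1 (i + 1),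
    x.2.2.elim fun n h => ⟨n, fun i hi => h _ (by omega)⟩⟩
  have hp : ∀ n (x : T), (p^[n] x).1 = rp^[n] x.1 := fun n x =>
    Function.Semiconj.iterate_right (f := Subtype.val) (ga := p) (gb := rp) (fun _ => rfl) n x
  refine ⟨T, p, fun x => x.1.1, fun x => rs x.1, fun x => x.1.2 0, ⟨⟨(0, fun _ => 0), fun i => ?_,
    0, fun _ _ => rfl⟩, rfl⟩, fun x => rfl, fun x y => ?_, fun z => ⟨z.2.1 0, rs_rp z.1⟩,
    fun z z' h h' => ?_, fun x c hc => ?_, fun x h => if_pos h⟩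
  · generalize rs _ = s
    rcases s with ⟨j, _ | k, _ | w, _ | q, _ | e⟩ <;> simp [nch]
  · obtain ⟨n, hn⟩ := x.2.2
    obtain ⟨m, hm⟩ := y.2.2
    refine ⟨n + m + (y.1.1 - x.1.1).toNat, n + m + (x.1.1 - y.1.1).toNat, Subtype.ext ?_⟩
    rw [hp, hp, rp_it, rp_it]
    exact Prod.ext (by simp only; omega)
      (funext fun i => (hn _ (by omega)).trans (hm _ (by omega)).symm)
  · have h1 := Prod.mk.inj (congrArg Subtype.val h)
    refine Subtype.ext (Prod.ext (add_right_cancel h1.1) (funext fun i => ?_))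
    cases i with
    | zero => exact h'
    | succ i => exact congrFun h1.2 i
  · have e : rp (x.1.1 - 1, fun i => Nat.casesOn i c x.1.2) = x.1 := by simp [rp]
    refine ⟨⟨(x.1.1 - 1, fun i => Nat.casesOn i c x.1.2), fun i => ?_, x.2.2.elim fun n h =>
      ⟨n + 1, fun i hi => ?_⟩⟩, Subtype.ext e, rfl⟩
    · rw [Function.iterate_succ_apply, e]
      cases i with
      | zero => exact hc
      | succ i => exact x.2.1 i
    · cases i with
      | zero => omega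
      | succ i => exact h i (by omega)

end Pool.Agent.H.MP_fc4263_co
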