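import Mathlib
import Pool.Agent.H.MP_fc4263_co.A

set_option autoImplicit false
set_option linter.unusedSectionVars false

namespace Pool.Agent.H.MP_fc4263_co

open Finset SimpleGraph

lemma amen {V : Type} {G : SimpleGraph V} (H : G.Subgraph) (D : V → ℕ) (J : ℕ) (hJ : 1 ≤ J)
    (h0 : ∀ u w, G.Adj u w → D u = 0 → D w ≤ 1)
    (h1 : ∀ u w, G.Adj u w → 1 ≤ D u → D u ≤ J → D w = D u + 1 ∨ D w + 1 = D u)
    (h2 : ∀ u w w', G.Adj u w → G.Adj u w' → 1 ≤ D u → D u ≤ J → D w = D u + 1 →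
      D w' = D u + 1 → w = w')
    (v : V) (hv : v ∈ H.verts) (hD : D v = 0) (R : Set V) (hR : R.Finite) (hvR : v ∈ R)
    (hc : ∀ u ∈ R, ∀ w, G.Adj u w → D w ≤ J → w ∈ R) :
    ∃ S : Finset V, S.Nonempty ∧ ↑S ⊆ H.verts ∧
      {e ∈ H.edgeSet | ∃ u w, e = s(u, w) ∧ u ∈ S ∧ w ∉ S}.ncard * J ≤ S.card := by
  classical
  let Re : V → Prop := Relation.ReflTransGen (fun u w => H.Adj u w ∧ D w ≤ J) v
  have r1 : ∀ u, Re u → u ∈ R ∧ u ∈ H.verts ∧ D u ≤ J := fun u h => by
    induction h with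
    | refl => exact ⟨hvR, hv, by omega⟩
    | tail _ h ih => exact ⟨hc _ ih.1 _ (H.adj_sub h.1) h.2, h.1.snd_mem, h.2⟩
  let S := hR.toFinset.filter Re
  have hS : ∀ u, u ∈ S ↔ Re u := fun u => by simpa [S] using fun h => (r1 u h).1
  let dn : V → V := fun u => if h : ∃ w, G.Adj u w ∧ D w = D u + 1 then h.choose else u
  have hdn : ∀ u w, G.Adj u w → 1 ≤ D u → D u ≤ J → D w = D u + 1 → dn u = w :=
    fun u w a b c d => by
      have h : ∃ w, G.Adj u w ∧ D w = D u + 1 := ⟨w, a, d⟩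
      exact (dif_pos h).trans (h2 u _ w h.choose_spec.1 a b c h.choose_spec.2 d)
  let ρ : V → V := fun u => dn^[J - D u] u
  have hρ : ∀ u w, G.Adj u w → 1 ≤ D u → D w ≤ J → D w = D u + 1 → ρ u = ρ w :=
    fun u w a b c d => by
      simp only [ρ]
      rw [show J - D u = J - D w + 1 by omega, Function.iterate_succ_apply,
        hdn u w a b (by omega) d]
  have inv : ∀ u, Re u → ∀ i, 1 ≤ i → i ≤ D u → ∃ z, Re z ∧ D z = i ∧ ρ z = ρ u := fun u h => by
    induction h with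
    | refl => intro i a b; omega
    | @tail u w h h' ih =>
      intro i a b
      have e := H.adj_sub h'.1
      have := (r1 u h).2.2
      by_cases c : i = D w
      · exact ⟨w, h.tail h', c.symm, rfl⟩
      have := h0 u w e
      rcases h1 u w e (by omega) (by omega) with d | d
      · exact hρ u w e (by omega) h'.2 d ▸ ih i a (by omega)
      · exact hρ w u e.symm (by omega) (by omega) d.symm ▸ ih i a (by omega)
  let L : ℕ → Finset V := fun i => S.filter (D · = i)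
  have l1 : ∀ i ∈ Icc 1 J, (L J).card ≤ (L i).card := fun i hi =>
    (card_le_card fun u hu => by
      obtain ⟨a, b⟩ := mem_filter.1 hu
      obtain ⟨z, c, d, e⟩ := inv u ((hS u).1 a) i (mem_Icc.1 hi).1 (b ▸ (mem_Icc.1 hi).2)
      exact mem_image.2 ⟨z, mem_filter.2 ⟨(hS z).2 c, d⟩, by simpa [ρ, b] using e⟩).trans
      (card_image_le (f := ρ))
  have l2 := card_nsmul_le_sum _ _ _ l1
  rw [sum_card_fiberwise_eq_card_filter] at l2
  have l3 := card_filter_le S fun u => D u ∈ Icc 1 J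
  refine ⟨S, ⟨v, (hS v).2 .refl⟩, fun u hu => (r1 u ((hS u).1 hu)).2.1, ?_⟩
  have l4 : {e ∈ H.edgeSet | ∃ u w, e = s(u, w) ∧ u ∈ S ∧ w ∉ S} ⊆
      ↑((L J).image fun u => s(u, dn u)) := by
    rintro _ ⟨a, u, w, rfl, b, c⟩
    have d := (hS u).1 b
    have e : ¬ D w ≤ J := fun e => c ((hS w).2 (d.tail ⟨a, e⟩))
    have f := H.adj_sub a
    have := (r1 u d).2.2
    have := h0 u w f
    have := h1 u w f (by omega) (by omega)
    exact mem_coe.2 (mem_image.2 ⟨u, mem_filter.2 ⟨b, by omega⟩, by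
      rw [hdn u w f (by omega) (by omega) (by omega)]⟩)
  have l5 := (Set.ncard_le_ncard l4 (Finset.finite_toSet _)).trans
    ((Set.ncard_coe_finset _).le.trans card_image_le)
  simp only [Nat.card_Icc, Nat.add_sub_cancel, smul_eq_mul] at l2
  nlinarith

lemma geo0 (f : ℕ → ℕ) (c : ℕ) (h : ∀ r, f r ≤ c * 2 ^ r) (r : ℕ) :
    ∑ i ∈ range (r + 1), f i ≤ 2 * c * 2 ^ r := by
  induction r with
  | zero => have := h 0; simp at *; omega
  | succ r ih => rw [sum_range_succ, pow_succ]; have := h (r + 1); rw [pow_succ] at this; nlinarith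

lemma geo (c r : ℕ) : ∑ i ∈ range (r + 1), c * 2 ^ (r - i) ≤ 2 * c * 2 ^ r :=
  (sum_range_reflect (fun i => c * 2 ^ i) (r + 1)).le.trans (geo0 _ c (fun _ => le_rfl) r)

section prod
variable {T : Type} (p : T → T) (l : T → ℤ)

def G : SimpleGraph {v : T × T // l v.1 + l v.2 = 0} :=
  fromRel fun u w => p w.1.1 = u.1.1 ∧ p u.1.2 = w.1.2

variable {p l} (hl : ∀ x, l (p x) = l x + 1)
include hl

lemma G_adj {u w : {v : T × T // l v.1 + l v.2 = 0}} : (G p l).Adj u w ↔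
    (p w.1.1 = u.1.1 ∧ p u.1.2 = w.1.2) ∨ (p u.1.1 = w.1.1 ∧ p w.1.2 = u.1.2) := by
  refine ⟨fun h => h.2, fun h => ⟨?_, h⟩⟩
  rintro rfl
  have := hl u.1.1
  rw [(h.elim id id).1] at this
  omega

lemma l_it (n : ℕ) (x : T) : l (p^[n] x) = l x + n := by
  induction n with
  | zero => simp
  | succ n ih => rw [Function.iterate_succ_apply', hl, ih]; push_cast; ring

lemma down (n : ℕ) (u w : {v : T × T // l v.1 + l v.2 = 0}) (h1 : p^[n] w.1.1 = u.1.1)
    (h2 : p^[n] u.1.2 = w.1.2) : ∃ q : (G p l).Walk u w, q.length = n := by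
  induction n generalizing u with
  | zero => exact ⟨.copy .nil rfl (Subtype.ext (Prod.ext h1.symm h2)), by simp⟩
  | succ n ih =>
    rw [Function.iterate_succ_apply'] at h1
    have := hl (p^[n] w.1.1)
    obtain ⟨q, hq⟩ := ih ⟨(p^[n] w.1.1, p u.1.2), by
      have := u.2; rw [h1] at *; simp only [hl]; omega⟩ rfl h2
    exact ⟨.cons ((G_adj hl).2 (.inl ⟨h1, rfl⟩)) q, by simp [hq]⟩

lemma conn (hs : ∀ x, ∃ z, p z = x) (h0 : ∃ x, l x = 0) (h : ∀ x y, ∃ a b, p^[a] x = p^[b] y) :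
    (G p l).Connected := by
  obtain ⟨x0, h0⟩ := h0
  have : Nonempty {v : T × T // l v.1 + l v.2 = 0} := ⟨⟨(x0, x0), by simp [h0]⟩⟩
  have hs' := fun n => Function.Surjective.iterate hs n
  refine ⟨fun u w => ?_⟩
  obtain ⟨a, b, h1⟩ := h u.1.1 w.1.1
  obtain ⟨y, hy⟩ := hs' a u.1.2
  obtain ⟨c, d, h2⟩ := h y w.1.2
  obtain ⟨x, hx⟩ := hs' d w.1.1
  have e1 := l_it hl a u.1.1
  have e2 := l_it hl b w.1.1
  have e3 := l_it hl a y
  have e4 := l_it hl c y
  have e5 := l_it hl d w.1.2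
  have e6 := l_it hl d x
  have := u.2
  have := w.2
  rw [h1] at e1
  rw [h2] at e4
  rw [hy] at e3
  rw [hx] at e6
  obtain ⟨q1, -⟩ := down hl a ⟨(p^[a] u.1.1, y), by simp only; rw [h1]; omega⟩ u rfl hy
  obtain ⟨q2, -⟩ := down hl c ⟨(p^[a] u.1.1, y), by simp only; rw [h1]; omega⟩
    ⟨(x, p^[c] y), by simp only; rw [h2]; omega⟩ (by
      show p^[c] x = p^[a] u.1.1
      rw [h1, ← hx, ← Function.iterate_add_apply, show b + d = c by omega]) rfl
  obtain ⟨q3, -⟩ := down hl d w ⟨(x, p^[c] y), by simp only; rw [h2]; omega⟩ hx h2.symm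
  exact q1.reachable.symm.trans (q2.reachable.trans q3.reachable.symm)

lemma walk {u w : {v : T × T // l v.1 + l v.2 = 0}} (q : (G p l).Walk w u) :
    ∃ a b a' b' : ℕ, p^[b'] w.1.1 = p^[b] u.1.1 ∧ p^[a'] w.1.2 = p^[a] u.1.2 ∧ a' + b' = a + b ∧
      (a + b + (a + b') ≤ q.length ∨ a + b + (b + a') ≤ q.length) := by
  induction q with
  | nil => exact ⟨0, 0, 0, 0, rfl, rfl, rfl, by simp⟩
  | cons h q ih =>
    obtain ⟨a, b, a', b', h1, h2, h3, h4⟩ := ih
    rw [Walk.length_cons]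
    rcases (G_adj hl).1 h with ⟨c, d⟩ | ⟨c, d⟩
    · rcases b' with _ | b'
      · exact ⟨a, b + 1, a' + 1, 0, by simpa [Function.iterate_succ_apply', ← h1] using c.symm,
          by simp [d, h2], by omega, by omega⟩
      · exact ⟨a, b, a' + 1, b', by simp [← c, ← h1], by simp [d, h2], by omega, by omega⟩
    · rcases a' with _ | a'
      · exact ⟨a + 1, b, 0, b' + 1, by simp [c, h1],
          by simpa [Function.iterate_succ_apply', ← h2] using d.symm, by omega, by omega⟩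
      · exact ⟨a, b, a', b' + 1, by simp [c, h1], by simp [← d, ← h2], by omega, by omega⟩

lemma ball_up [DecidableEq T] (hG : (G p l).Connected) (De : T → ℕ → Finset T)
    (h1 : ∀ x r z, z ∈ De x r ↔ p^[r] z = x) (h2 : ∀ x r, (De x r).card ≤ 3 * 2 ^ r)
    (u : {v : T × T // l v.1 + l v.2 = 0}) (r : ℕ) :
    {w | (G p l).dist u w ≤ r}.Finite ∧ {w | (G p l).dist u w ≤ r}.ncard ≤ 144 * 2 ^ r := by
  let F : T → T → Finset (T × T) := fun x y => (range (r + 1)).biUnion fun a =>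
    (range (r - a + 1)).biUnion fun b' => (range (r - a - b' + 1)).biUnion fun s =>
      if b' ≤ s then De (p^[s - a] x) b' ×ˢ De (p^[a] y) (s - b') else ∅
  have c : ∀ x y, (F x y).card ≤ 72 * 2 ^ r := fun x y => by
    refine card_biUnion_le.trans ((sum_le_sum fun a _ => ?_).trans (geo 36 r))
    refine card_biUnion_le.trans ((sum_le_sum fun b _ => ?_).trans (geo 18 _))
    refine card_biUnion_le.trans (geo0 _ 9 (fun s => ?_) _)
    split_ifs with h
    · rw [card_product]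
      refine (Nat.mul_le_mul (h2 _ _) (h2 _ _)).trans (le_of_eq ?_)
      conv_rhs => rw [show s = b + (s - b) by omega, pow_add]
      ring
    · simp
  have m : ∀ x y x' y' (a b a' b' : ℕ), p^[b'] x' = p^[b] x → p^[a'] y' = p^[a] y →
      a' + b' = a + b → a + b + (a + b') ≤ r → (x', y') ∈ F x y := by
    intro x y x' y' a b a' b' e1 e2 e3 e4
    simp only [F, mem_biUnion, mem_range]
    refine ⟨a, by omega, b', by omega, a + b, by omega, ?_⟩
    rw [if_pos (by omega), mem_product, h1, h1, Nat.add_sub_cancel_left,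
      show a + b - b' = a' by omega]
    exact ⟨e1, e2⟩
  have s : Subtype.val '' {w | (G p l).dist u w ≤ r} ⊆
      ↑(F u.1.1 u.1.2 ∪ (F u.1.2 u.1.1).image Prod.swap) := by
    rintro _ ⟨w, hw, rfl⟩
    obtain ⟨q, hq⟩ := (hG w u).exists_walk_length_eq_dist
    obtain ⟨a, b, a', b', e1, e2, e3, e4⟩ := walk hl q
    rw [hq, SimpleGraph.dist_comm] at e4
    have hw : (G p l).dist u w ≤ r := hw
    rw [mem_coe, mem_union]
    rcases e4 with e4 | e4
    · exact .inl (m _ _ _ _ a b a' b' e1 e2 e3 (by omega))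
    · exact .inr (mem_image.2 ⟨_, m _ _ _ _ b a b' a' e2 e1 (by omega) (by omega), rfl⟩)
  refine ⟨((Finset.finite_toSet _).subset s).of_finite_image Subtype.val_injective.injOn, ?_⟩
  rw [← Set.ncard_image_of_injective _ Subtype.val_injective]
  refine (Set.ncard_le_ncard s (Finset.finite_toSet _)).trans ?_
  rw [Set.ncard_coe_finset]
  have := card_union_le (F u.1.1 u.1.2) ((F u.1.2 u.1.1).image Prod.swap)
  have := card_image_le (s := F u.1.2 u.1.1) (f := Prod.swap)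
  have := c u.1.1 u.1.2
  have := c u.1.2 u.1.1
  omega

lemma ball_low (De : T → ℕ → Finset T) (h1 : ∀ x r z, z ∈ De x r ↔ p^[r] z = x)
    (h2 : ∀ x r, 0 ≤ l x → 2 ^ r ≤ (De x r).card) (u : {v : T × T // l v.1 + l v.2 = 0}) (r : ℕ)
    (hf : {w | (G p l).dist u w ≤ r}.Finite) : 2 ^ r ≤ {w | (G p l).dist u w ≤ r}.ncard := by
  have := u.2
  by_cases h : 0 ≤ l u.1.1
  · refine (h2 _ r h).trans ((Set.ncard_coe_finset _).ge.trans (le_trans (Set.ncard_le_ncard
      (fun z hz => ?_) (hf.image fun w => w.1.1)) (Set.ncard_image_le hf)))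
    have e := (h1 _ _ _).1 hz
    have e1 := l_it hl r z
    have e2 := l_it hl r u.1.2
    rw [e] at e1
    obtain ⟨q, hq⟩ := down hl r u ⟨(z, p^[r] u.1.2), by simp only; omega⟩ e rfl
    exact ⟨_, (dist_le q).trans hq.le, rfl⟩
  · refine (h2 u.1.2 r (by omega)).trans ((Set.ncard_coe_finset _).ge.trans (le_trans
      (Set.ncard_le_ncard (fun z hz => ?_) (hf.image fun w => w.1.2)) (Set.ncard_image_le hf)))
    have e := (h1 _ _ _).1 hz
    have e1 := l_it hl r z
    have e2 := l_it hl r u.1.1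
    rw [e] at e1
    obtain ⟨q, hq⟩ := down hl r ⟨(p^[r] u.1.1, z), by simp only; omega⟩ u rfl e
    exact ⟨_, (dist_le q.reverse).trans (by simp [hq]), rfl⟩

lemma box (De : T → ℕ → Finset T) (h1 : ∀ x r z, z ∈ De x r ↔ p^[r] z = x) (n : ℕ)
    (v : {v : T × T // l v.1 + l v.2 = 0}) (hv : l v.1.1 ≤ n ∧ l v.1.2 ≤ n) :
    ∃ R : Set {v : T × T // l v.1 + l v.2 = 0}, R.Finite ∧ v ∈ R ∧
      ∀ u ∈ R, ∀ w, (G p l).Adj u w → l w.1.1 ≤ n ∧ l w.1.2 ≤ n → w ∈ R := by
  let top : T → T := fun x => p^[(n - l x).toNat] x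
  have ht : ∀ x, l (p x) ≤ n → top (p x) = top x := fun x h => by
    simp only [top]
    rw [show (n - l x).toNat = (n - l (p x)).toNat + 1 by have := hl x; omega]
    rfl
  have hf : ∀ X, {x | -(n : ℤ) ≤ l x ∧ top x = X}.Finite := fun X =>
    (Set.Finite.biUnion (Set.finite_le_nat (2 * n)) fun r _ => (De X r).finite_toSet).subset
      fun x hx => Set.mem_biUnion (x := (n - l x).toNat) (by have := hx.1; simp; omega)
        ((h1 _ _ _).2 hx.2)
  refine ⟨{w | (l w.1.1 ≤ n ∧ l w.1.2 ≤ n) ∧ top w.1.1 = top v.1.1 ∧ top w.1.2 = top v.1.2},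
    (((hf (top v.1.1)).prod (hf (top v.1.2))).preimage Subtype.val_injective.injOn).subset
      fun w hw => ⟨⟨by have := w.2; have := hw.1; omega, hw.2.1⟩,
        by have := w.2; have := hw.1; omega, hw.2.2⟩, ⟨hv, rfl, rfl⟩, fun u hu w h hw => ⟨hw, ?_⟩⟩
  rw [← hu.2.1, ← hu.2.2]
  rcases (G_adj hl).1 h with ⟨c, d⟩ | ⟨c, d⟩
  · exact ⟨by rw [← c, ht _ (c ▸ hu.1.1)], by rw [← d, ht _ (d ▸ hw.2)]⟩
  · exact ⟨by rw [← c, ht _ (c ▸ hw.1)], by rw [← d, ht _ (d ▸ hu.1.2)]⟩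

end prod

theorem main : ∃ (V : Type) (G : SimpleGraph V), G.Connected ∧
    (∀ v r, {w | G.dist v w ≤ r}.Finite ∧ 2 ^ r ≤ {w | G.dist v w ≤ r}.ncard ∧
      {w | G.dist v w ≤ r}.ncard ≤ 144 * 2 ^ r) ∧
    ∀ (H : G.Subgraph) (v : V), v ∈ H.verts → ∀ n, ∃ J ≥ n, ∃ S : Finset V, S.Nonempty ∧
      ↑S ⊆ H.verts ∧ {e ∈ H.edgeSet | ∃ u w, e = s(u, w) ∧ u ∈ S ∧ w ∉ S}.ncard * J ≤ S.card := by
  classical
  obtain ⟨T, p, l, st, lab, h0, hl, h1, h2, h3, h4, h5⟩ := tree
  have hD : ∀ r x, ∃ F : Finset T, (∀ z, z ∈ F ↔ p^[r] z = x) ∧ F.card = N r (st x) := by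
    intro r
    induction r with
    | zero => exact fun x => ⟨{x}, by simp, rfl⟩
    | succ r ih =>
      intro x
      choose De a b using ih
      have : Nonempty T := ⟨x⟩
      choose! ch c d using h4 x
      refine ⟨(range (nch (st x))).biUnion fun i => De (ch i), fun z => ?_, ?_⟩
      · simp only [mem_biUnion, mem_range, a, Function.iterate_succ_apply']
        refine ⟨fun ⟨i, e, f⟩ => f ▸ c i e, fun e => ?_⟩
        have f := e ▸ (h2 (p^[r] z)).1
        exact ⟨_, f, h3 _ _ (e.trans (c _ f).symm) (d _ f).symm⟩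
      · rw [card_biUnion, N]
        · refine sum_congr rfl fun i hi => ?_
          rw [b, (h2 _).2, c i (mem_range.1 hi), d i (mem_range.1 hi)]
        · intro i hi j hj hij
          refine disjoint_left.2 fun z e f => hij ?_
          rw [← d i (mem_range.1 hi), ← d j (mem_range.1 hj), ← (a _ _).1 e, ← (a _ _).1 f]
  choose De d1 d2 using hD
  have hI : ∀ (n : ℕ) x, -(n : ℤ) ≤ l x → Inv (st x) (l x) := by
    intro n
    induction n with
    | zero =>
      intro x h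
      rw [h5 x (by omega)]
      simp only [Inv, τ, tt]
      omega
    | succ n ih =>
      intro x h
      rw [(h2 x).2]
      exact Inv.step (hl x ▸ ih (p x) (by rw [hl]; omega)) (h2 x).1
  replace hI : ∀ x, Inv (st x) (l x) := fun x => hI (-l x).toNat x (by omega)
  have hG := conn hl (fun x => by
    obtain ⟨z, hz, -⟩ := h4 x 0 (by
      generalize st x = s
      rcases s with ⟨j, _ | k, _ | w, _ | q, _ | e⟩ <;> simp [nch])
    exact ⟨z, hz⟩) h0 h1
  refine ⟨_, G p l, hG, fun v r => ?_, fun H v hv n => ?_⟩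
  · obtain ⟨a, b⟩ := ball_up hl hG (fun x r => De r x) (fun x r => d1 r x)
      (fun x r => d2 r x ▸ (N_up r _).2.2.2 (hI x).1) v r
    refine ⟨a, ball_low hl (fun x r => De r x) (fun x r => d1 r x) (fun x r h => ?_) v r a, b⟩
    rw [d2, h5 x h]
    simpa using N_low r ⟨0, 0, 0, 0, (l x).toNat⟩ le_rfl
  let J := n + (st v.1.1).j + (st v.1.2).j + 1
  let d : T → ℕ := fun x => dd J (st x)
  have z0 : ∀ x, 0 ≤ l x → d x = 0 := fun x h => by simp [d, dd, h5 x h, J]
  have z1 : ∀ x, (d (p x) = 0 → d x ≤ 1) ∧ (1 ≤ d (p x) → d (p x) ≤ J → d x = d (p x) + 1 ∧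
      nch (st (p x)) = 1) ∧ (J < d (p x) → d x = d (p x)) := fun x => by
    simp only [d]
    rw [(h2 x).2]
    exact dd_step (hI _) _
  have z2 : ∀ x x', p x = p x' → 1 ≤ d (p x) → d (p x) ≤ J → x = x' := fun x x' a b c => by
    have := ((z1 x).2.1 b c).2
    have := (h2 x).1
    have := (h2 x').1
    rw [← a] at this
    exact h3 _ _ a (by omega)
  have z3 : ∀ x, d x ≤ J → -(tt J : ℤ) ≤ l x := fun x => dd_lev (hI x)
  have v0 : d v.1.1 + d v.1.2 = 0 := by
    simp only [d, dd]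
    rw [if_pos (by omega), if_pos (by omega)]
  obtain ⟨R, r1, r2, r3⟩ := box hl (fun x r => De r x) (fun x r => d1 r x) (tt J) v (by
    have := z3 v.1.1 (by omega)
    have := z3 v.1.2 (by omega)
    have := v.2
    omega)
  have key : ∀ x y, l (p x) + l y = 0 → (d (p x) + d y = 0 → d x + d (p y) ≤ 1) ∧
      (d x + d (p y) = 0 → d (p x) + d y ≤ 1) ∧
      (1 ≤ d (p x) → d y = 0 ∧ d (p y) = 0) ∧ (1 ≤ d y → d x = 0 ∧ d (p x) = 0) ∧
      (1 ≤ d x → d y = 0 ∧ d (p y) = 0) ∧ (1 ≤ d (p y) → d x = 0 ∧ d (p x) = 0) := by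
    intro x y h
    have := z1 x
    have := z1 y
    have := z0 x
    have := z0 y
    have := z0 (p x)
    have := z0 (p y)
    have := hl x
    have := hl y
    omega
  have ga : ∀ {x y x' y' e e'}, (G p l).Adj ⟨(x, y), e⟩ ⟨(x', y'), e'⟩ →
      (p x' = x ∧ p y = y') ∨ (p x = x' ∧ p y' = y) := (G_adj hl).1
  refine ⟨J, by omega, amen H (fun u => d u.1.1 + d u.1.2) J (by omega) ?_ ?_ ?_ v hv v0 R r1 r2
    fun u hu w h hw => r3 u hu w h ?_⟩
  · rintro ⟨⟨x, y⟩, e⟩ ⟨⟨x', y'⟩, e'⟩ h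
    rcases ga h with ⟨rfl, rfl⟩ | ⟨rfl, rfl⟩
    · exact (key _ _ e).1
    · exact (key _ _ e').2.1
  · rintro ⟨⟨x, y⟩, e⟩ ⟨⟨x', y'⟩, e'⟩ h
    rcases ga h with ⟨rfl, rfl⟩ | ⟨rfl, rfl⟩
    · have := key x' y e
      have := z1 x'
      have := z1 y
      simp only
      omega
    · have := key x y' e'
      have := z1 x
      have := z1 y'
      simp only
      omega
  · rintro ⟨⟨x, y⟩, e⟩ ⟨⟨x', y'⟩, e'⟩ ⟨⟨x'', y''⟩, e''⟩ h h'
    simp only [Subtype.mk.injEq, Prod.mk.injEq]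
    rcases ga h with ⟨rfl, rfl⟩ | ⟨rfl, rfl⟩ <;>
      rcases ga h' with ⟨a, b⟩ | ⟨a, b⟩ <;> intro c1 c2 c3 c4
    · have := key _ _ e
      have := z1 y
      exact ⟨z2 _ _ a.symm (by omega) (by omega), b⟩
    · subst a b
      have := key _ _ e
      have := key _ _ e''
      have := z1 x'
      have := z1 (p x')
      have := z1 y''
      have := z1 (p y'')
      omega
    · subst a b
      have := key _ _ e
      have := key _ _ e'
      have := z1 x''
      have := z1 (p x'')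
      have := z1 y'
      have := z1 (p y')
      omega
    · have := key x y' e'
      have := z1 x
      exact ⟨a, z2 _ _ b.symm (by omega) (by omega)⟩
  · have := z3 w.1.1 (by omega)
    have := z3 w.1.2 (by omega)
    have := w.2
    omega

end Pool.Agent.H.MP_fc4263_co
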